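import Mathlib

set_option autoImplicit false

namespace Pool.Agent.H927R3.Nu2

open Finset

/-- Clebsch graph adjacency on `Fin 16` (Cayley graph of `Z_2^4` with connection set `1,2,4,8,15`). -/
def adj (x y : Fin 16) : Bool :=
  Nat.xor x.val y.val == 1 || Nat.xor x.val y.val == 2 || Nat.xor x.val y.val == 4 ||
    Nat.xor x.val y.val == 8 || Nat.xor x.val y.val == 15

/-- base weight: the 0/1 matrix `I + (K_l × Clebsch)`. -/
def w {l : ℕ} (a a' : Fin l) (b b' : Fin 16) : ℕ :=
  if a = a' then (if b = b' then 1 else 0) else (if adj b b' = true then 1 else 0)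

/-- parity of the number of common binary digits -/
def par (u b : Fin 16) : Bool :=
  Nat.testBit (Nat.land u.val b.val) 0 ^^ Nat.testBit (Nat.land u.val b.val) 1 ^^
    Nat.testBit (Nat.land u.val b.val) 2 ^^ Nat.testBit (Nat.land u.val b.val) 3

/-- characters of `Z_2^4` -/
def chi (u b : Fin 16) : ℤ := if par u b = true then -1 else 1

/-- eigenvalue of the Clebsch graph at the character `u` -/
def lam (u : Fin 16) : ℤ :=
  chi u 1 + chi u 2 + chi u 4 + chi u 8 + chi u 15

/-- the six characters whose eigenvalue is not one -/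
def good (u : Fin 16) : Bool := lam u != 1

theorem adj_symm : ∀ x y : Fin 16, adj x y = adj y x := by decide +kernel

theorem adj_irrefl : ∀ x : Fin 16, adj x x = false := by decide +kernel

theorem orth1 : ∀ b b' : Fin 16, (∑ u : Fin 16, chi u b * chi u b') = if b = b' then 16 else 0 := by
  decide +kernel

theorem orth2 : ∀ b b' : Fin 16, (∑ u : Fin 16, chi u b * chi u b' * lam u) =
    if adj b b' = true then 16 else 0 := by
  decide +kernel

theorem good_card : (univ.filter (fun u : Fin 16 => good u = true)).card = 6 := by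
  decide +kernel

/-- the coefficient function -/
def h {l : ℕ} (u : Fin 16) (a a' : Fin l) : ℤ :=
  if good u = true then (if a = a' then 1 else lam u) else 1

theorem lam_of_not_good (u : Fin 16) (hu : good u = false) : lam u = 1 := by
  simpa [good] using hu

theorem base_id {l : ℕ} (a a' : Fin l) (b b' : Fin 16) :
    (∑ u : Fin 16, chi u b * chi u b' * h u a a') = 16 * (w a a' b b' : ℤ) := by
  by_cases ha : a = a'
  · subst ha
    have : ∀ u : Fin 16, chi u b * chi u b' * h u a a = chi u b * chi u b' := by
      intro u
      simp [h]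
    rw [Finset.sum_congr rfl (fun u _ => this u), orth1]
    by_cases hb : b = b' <;> simp [w, hb]
  · have : ∀ u : Fin 16, chi u b * chi u b' * h u a a' = chi u b * chi u b' * lam u := by
      intro u
      by_cases hg : good u = true
      · simp [h, hg, ha]
      · have hg' : good u = false := by simpa using hg
        simp [h, hg', lam_of_not_good u hg']
    rw [Finset.sum_congr rfl (fun u _ => this u), orth2]
    by_cases hb : adj b b' = true <;> simp [w, ha, hb]

theorem w_symm {l : ℕ} (a a' : Fin l) (b b' : Fin 16) : w a a' b b' = w a' a b' b := by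
  unfold w
  rw [adj_symm b b']
  by_cases ha : a = a'
  · subst ha
    by_cases hb : b = b'
    · subst hb; simp
    · simp [hb, Ne.symm hb]
  · simp [ha, Ne.symm ha]

theorem w_le_one {l : ℕ} (a a' : Fin l) (b b' : Fin 16) : w a a' b b' ≤ 1 := by
  unfold w
  split_ifs <;> simp

theorem w_self {l : ℕ} (a : Fin l) (b : Fin 16) : w a a b b = 1 := by
  simp [w]

/-- indicator forms used in the counting -/
def tc (p q r : Bool) (b b' b'' : Fin 16) : ℕ :=
  (if p then (if b = b' then 1 else 0) else (if adj b b' = true then 1 else 0)) *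
  (if q then (if b' = b'' then 1 else 0) else (if adj b' b'' = true then 1 else 0)) *
  (if r then (if b = b'' then 1 else 0) else (if adj b b'' = true then 1 else 0))

theorem tc_fff : (∑ b : Fin 16, ∑ b' : Fin 16, ∑ b'' : Fin 16, tc false false false b b' b'') = 0 := by
  decide +kernel
theorem tc_tff : (∑ b : Fin 16, ∑ b' : Fin 16, ∑ b'' : Fin 16, tc true false false b b' b'') = 80 := by
  decide +kernel
theorem tc_ftf : (∑ b : Fin 16, ∑ b' : Fin 16, ∑ b'' : Fin 16, tc false true false b b' b'') = 80 := by
  decide +kernel
theorem tc_fft : (∑ b : Fin 16, ∑ b' : Fin 16, ∑ b'' : Fin 16, tc false false true b b' b'') = 80 := by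
  decide +kernel
theorem tc_ttt : (∑ b : Fin 16, ∑ b' : Fin 16, ∑ b'' : Fin 16, tc true true true b b' b'') = 16 := by
  decide +kernel

/-- number of triples in one coordinate -/
def NN {l : ℕ} (a a' a'' : Fin l) : ℕ :=
  ∑ b : Fin 16, ∑ b' : Fin 16, ∑ b'' : Fin 16, w a a' b b' * w a' a'' b' b'' * w a a'' b b''

theorem NN_le {l : ℕ} (a a' a'' : Fin l) :
    NN a a' a'' ≤ 80 * ((if a = a' then 1 else 0) + (if a' = a'' then 1 else 0) +
      (if a = a'' then 1 else 0)) := by
  have key : NN a a' a'' = ∑ b : Fin 16, ∑ b' : Fin 16, ∑ b'' : Fin 16,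
      tc (decide (a = a')) (decide (a' = a'')) (decide (a = a'')) b b' b'' := by
    unfold NN w tc
    simp only [decide_eq_true_eq]
  rw [key]
  by_cases h1 : a = a'
  · subst h1
    by_cases h2 : a = a''
    · subst h2
      simp only [decide_true, tc_ttt, if_true]
      norm_num
    · simp only [decide_true, h2, decide_false, tc_tff, if_true, if_false]
      norm_num
  · by_cases h2 : a' = a''
    · subst h2
      simp only [h1, decide_false, decide_true, tc_ftf, if_true, if_false]
      norm_num
    · by_cases h3 : a = a''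
      · subst h3
        simp only [h1, h2, decide_false, decide_true, tc_fft, if_true, if_false]
        norm_num
      · simp only [h1, h2, h3, decide_false, tc_fff, if_false]
        norm_num

theorem NN_sum (l : ℕ) : (∑ a : Fin l, ∑ a' : Fin l, ∑ a'' : Fin l, NN a a' a'') ≤ 240 * l ^ 2 := by
  calc (∑ a : Fin l, ∑ a' : Fin l, ∑ a'' : Fin l, NN a a' a'')
      ≤ ∑ a : Fin l, ∑ a' : Fin l, ∑ a'' : Fin l, 80 * ((if a = a' then 1 else 0) +
        (if a' = a'' then 1 else 0) + (if a = a'' then 1 else 0)) :=
        Finset.sum_le_sum fun a _ => Finset.sum_le_sum fun a' _ =>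
          Finset.sum_le_sum fun a'' _ => NN_le a a' a''
    _ = 240 * l ^ 2 := by
        simp only [← Finset.mul_sum, Finset.sum_add_distrib]
        simp
        ring

end Pool.Agent.H927R3.Nu2
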