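import Mathlib
import Pool.Agent.H927R3.Nu2Base

set_option autoImplicit false

namespace Pool.Agent.H927R3.Nu2

open Finset

/-- rank of a matrix which only depends on the row through a factor and a projection -/
theorem rank_fg {V P : Type*} [Fintype V] [DecidableEq V] [Fintype P] [DecidableEq P]
    (f : V → ℝ) (π : V → P) (g : P → V → ℝ) :
    (Matrix.of (fun x y => f x * g (π x) y) : Matrix V V ℝ).rank ≤ Fintype.card P := by
  have e : (Matrix.of (fun x y => f x * g (π x) y) : Matrix V V ℝ) =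
      (Matrix.of (fun x p => if π x = p then f x else 0) : Matrix V P ℝ) *
        (Matrix.of (fun p y => g p y) : Matrix P V ℝ) := by
    ext x y
    simp [Matrix.mul_apply]
  rw [e]
  exact (Matrix.rank_mul_le_left _ _).trans (Matrix.rank_le_card_width _)

theorem rank_add_le' {V W : Type*} [Fintype V] [DecidableEq V] [Fintype W] (A B : Matrix W V ℝ) :
    (A + B).rank ≤ A.rank + B.rank := by
  unfold Matrix.rank
  rw [Matrix.mulVecLin_add]
  refine (Submodule.finrank_mono ?_).trans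
    (Submodule.finrank_add_le_finrank_add_finrank (LinearMap.range A.mulVecLin)
      (LinearMap.range B.mulVecLin))
  rintro _ ⟨x, rfl⟩
  exact Submodule.add_mem_sup (LinearMap.mem_range_self _ x) (LinearMap.mem_range_self _ x)

theorem rank_sum_le {V ι : Type*} [Fintype V] [DecidableEq V] (s : Finset ι) (N : ι → Matrix V V ℝ) :
    (∑ i ∈ s, N i).rank ≤ ∑ i ∈ s, (N i).rank := by
  classical
  induction s using Finset.induction_on with
  | empty => simp
  | insert a s ha ih =>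
    rw [Finset.sum_insert ha, Finset.sum_insert ha]
    exact (rank_add_le' _ _).trans (Nat.add_le_add_left ih _)

/-- the vertex type -/
abbrev V (m k : ℕ) := Fin m × (Fin k → Fin 16)

/-- the 0/1 matrix of the construction, natural number valued -/
def M {m k l : ℕ} (c : Fin m → Fin k → Fin l) (x y : V m k) : ℕ :=
  ∏ j, w (c x.1 j) (c y.1 j) (x.2 j) (y.2 j)

/-- the summand of the matrix for one character vector `u` -/
noncomputable def Nu {m k l : ℕ} (c : Fin m → Fin k → Fin l) (u : Fin k → Fin 16) :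
    Matrix (V m k) (V m k) ℝ :=
  Matrix.of (fun x y => ((1 / 16 : ℝ) ^ k * ∏ j, (chi (u j) (x.2 j) : ℝ)) *
    ((∏ j, (chi (u j) (y.2 j) : ℝ)) * ∏ j, (h (u j) (c x.1 j) (c y.1 j) : ℝ)))

theorem M_eq_sum {m k l : ℕ} (c : Fin m → Fin k → Fin l) :
    (Matrix.of (fun x y => (M c x y : ℝ)) : Matrix (V m k) (V m k) ℝ) = ∑ u, Nu c u := by
  ext x y
  rw [Matrix.sum_apply]
  simp only [Matrix.of_apply, Nu, M]
  have h1 : ∀ j : Fin k, ((w (c x.1 j) (c y.1 j) (x.2 j) (y.2 j) : ℕ) : ℝ) =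
      ∑ u : Fin 16, (1 / 16 : ℝ) * ((chi u (x.2 j) : ℝ) * (chi u (y.2 j) : ℝ) *
        (h u (c x.1 j) (c y.1 j) : ℝ)) := by
    intro j
    have := base_id (c x.1 j) (c y.1 j) (x.2 j) (y.2 j)
    have h2 : (((∑ u : Fin 16, chi u (x.2 j) * chi u (y.2 j) * h u (c x.1 j) (c y.1 j)) : ℤ) : ℝ) =
        ((16 * (w (c x.1 j) (c y.1 j) (x.2 j) (y.2 j) : ℤ) : ℤ) : ℝ) := by rw [this]
    push_cast at h2
    rw [← Finset.mul_sum, h2]
    ring
  push_cast
  rw [Finset.prod_congr rfl (fun j _ => h1 j), Finset.prod_univ_sum]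
  simp only [Fintype.piFinset_univ]
  apply Finset.sum_congr rfl
  intro u _
  rw [Finset.prod_mul_distrib, Finset.prod_const, Finset.prod_mul_distrib, Finset.prod_mul_distrib]
  simp only [Finset.card_univ, Fintype.card_fin]
  ring

theorem rank_Nu_le_m {m k l : ℕ} (c : Fin m → Fin k → Fin l) (u : Fin k → Fin 16) :
    (Nu c u).rank ≤ m := by
  have := rank_fg (V := V m k) (P := Fin m)
    (fun x => ((1 / 16 : ℝ) ^ k * ∏ j, (chi (u j) (x.2 j) : ℝ))) (fun x => x.1)
    (fun p y => ((∏ j, (chi (u j) (y.2 j) : ℝ)) * ∏ j, (h (u j) (c p j) (c y.1 j) : ℝ)))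
  simpa [Nu] using this

theorem rank_Nu_le_l {m k l : ℕ} (c : Fin m → Fin k → Fin l) (u : Fin k → Fin 16) :
    (Nu c u).rank ≤ l ^ (univ.filter (fun j => good (u j) = true)).card := by
  have := rank_fg (V := V m k) (P := {j : Fin k // good (u j) = true} → Fin l)
    (fun x => ((1 / 16 : ℝ) ^ k * ∏ j, (chi (u j) (x.2 j) : ℝ))) (fun x j => c x.1 j.1)
    (fun p y => ((∏ j, (chi (u j) (y.2 j) : ℝ)) *
      ∏ j, (if hj : good (u j) = true then (h (u j) (p ⟨j, hj⟩) (c y.1 j) : ℝ) else 1)))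
  have e : (Nu c u) = (Matrix.of (fun x y : V m k =>
      ((1 / 16 : ℝ) ^ k * ∏ j, (chi (u j) (x.2 j) : ℝ)) * ((∏ j, (chi (u j) (y.2 j) : ℝ)) *
      ∏ j, (if hj : good (u j) = true then (h (u j) (c x.1 j) (c y.1 j) : ℝ) else 1)))) := by
    ext x y
    simp only [Nu, Matrix.of_apply]
    congr 2
    apply Finset.prod_congr rfl
    intro j _
    by_cases hj : good (u j) = true
    · simp [hj]
    · have hj' : good (u j) = false := by simpa using hj
      simp [hj', h]
  rw [e]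
  refine this.trans ?_
  rw [Fintype.card_fun, Fintype.card_fin, Fintype.card_subtype]

/-- `y` is the fifteenth root of two -/
noncomputable def yy : ℝ := (2 : ℝ) ^ (1 / 15 : ℝ)

theorem yy_pow : yy ^ 15 = 2 := by
  unfold yy
  rw [← Real.rpow_natCast, ← Real.rpow_mul (by norm_num)]
  norm_num

theorem yy_pos : 0 < yy := by unfold yy; positivity

theorem yy_one_le : 1 ≤ yy := by
  by_contra hlt
  push Not at hlt
  have : yy ^ 15 < 1 := pow_lt_one₀ yy_pos.le hlt (by norm_num)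
  rw [yy_pow] at this
  norm_num at this

theorem yy_lt : yy < 1.0475 := by
  by_contra hlt
  push Not at hlt
  have : (1.0475 : ℝ) ^ 15 ≤ yy ^ 15 := pow_le_pow_left₀ (by norm_num) hlt 15
  rw [yy_pow] at this
  norm_num at this

theorem lt_yy : 1.047 < yy := by
  by_contra hlt
  push Not at hlt
  have : yy ^ 15 ≤ (1.047 : ℝ) ^ 15 := pow_le_pow_left₀ yy_pos.le hlt 15
  rw [yy_pow] at this
  norm_num at this

theorem key_ineq : 10 + 6 * yy ^ 11 < 16 * yy ^ 5 := by
  have h1 : yy ^ 11 ≤ (1.0475 : ℝ) ^ 11 := pow_le_pow_left₀ yy_pos.le yy_lt.le 11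
  have h2 : (1.047 : ℝ) ^ 5 ≤ yy ^ 5 := pow_le_pow_left₀ (by norm_num) lt_yy.le 5
  have h3 : 10 + 6 * (1.0475 : ℝ) ^ 11 < 16 * (1.047 : ℝ) ^ 5 := by norm_num
  linarith

theorem min_bound (k j : ℕ) (r : ℕ) (h1 : r ≤ (2 ^ 20) ^ k) (h2 : r ≤ (2 ^ 44) ^ j) :
    (r : ℝ) ≤ (yy ^ 295) ^ k * (yy ^ 11) ^ j := by
  have e2 : (2 : ℝ) = yy ^ 15 := yy_pow.symm
  rcases Nat.le_total (5 * k) (11 * j) with hkj | hkj
  · have : (r : ℝ) ≤ ((2 : ℝ) ^ 20) ^ k := by exact_mod_cast h1
    refine this.trans ?_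
    rw [e2, ← pow_mul, ← pow_mul, ← pow_mul, ← pow_mul, ← pow_add]
    exact pow_le_pow_right₀ yy_one_le (by omega)
  · have : (r : ℝ) ≤ ((2 : ℝ) ^ 44) ^ j := by exact_mod_cast h2
    refine this.trans ?_
    rw [e2, ← pow_mul, ← pow_mul, ← pow_mul, ← pow_mul, ← pow_add]
    exact pow_le_pow_right₀ yy_one_le (by omega)

/-- the growth rate of the rank -/
noncomputable def beta : ℝ := yy ^ 295 * (10 + 6 * yy ^ 11)

theorem beta_lt : beta < 2 ^ 24 := by
  have : (2 : ℝ) ^ 24 = yy ^ 295 * (16 * yy ^ 5) := by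
    have e : (2 : ℝ) ^ 20 = yy ^ 300 := by
      rw [show (300 : ℕ) = 15 * 20 by norm_num, pow_mul, yy_pow]
    calc (2 : ℝ) ^ 24 = 16 * 2 ^ 20 := by norm_num
      _ = 16 * yy ^ 300 := by rw [e]
      _ = yy ^ 295 * (16 * yy ^ 5) := by ring
  rw [this]
  unfold beta
  exact mul_lt_mul_of_pos_left key_ineq (pow_pos yy_pos _)

theorem beta_ge : 1 ≤ beta := by
  unfold beta
  have h1 : 1 ≤ yy ^ 295 := one_le_pow₀ yy_one_le
  have h2 : 1 ≤ yy ^ 11 := one_le_pow₀ yy_one_le
  nlinarith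

theorem rank_M_le {k : ℕ} (c : Fin ((2 ^ 20) ^ k) → Fin k → Fin (2 ^ 44)) :
    ((Matrix.of (fun x y => (M c x y : ℝ)) :
      Matrix (V ((2 ^ 20) ^ k) k) (V ((2 ^ 20) ^ k) k) ℝ).rank : ℝ) ≤ beta ^ k := by
  rw [M_eq_sum]
  have h1 : ((∑ u, Nu c u).rank : ℝ) ≤ ∑ u, ((Nu c u).rank : ℝ) := by
    exact_mod_cast rank_sum_le univ (fun u => Nu c u)
  refine h1.trans ?_
  have h2 : ∀ u : Fin k → Fin 16, ((Nu c u).rank : ℝ) ≤
      (yy ^ 295) ^ k * ∏ j, (if good (u j) = true then yy ^ 11 else 1) := by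
    intro u
    refine (min_bound k _ _ (rank_Nu_le_m c u) (rank_Nu_le_l c u)).trans (le_of_eq ?_)
    congr 1
    rw [Finset.prod_ite, Finset.prod_const, Finset.prod_const_one, mul_one]
  refine (Finset.sum_le_sum (fun u _ => h2 u)).trans (le_of_eq ?_)
  rw [← Finset.mul_sum]
  have h3 : (∑ u : Fin k → Fin 16, ∏ j, (if good (u j) = true then yy ^ 11 else (1 : ℝ))) =
      (10 + 6 * yy ^ 11) ^ k := by
    have := Finset.prod_univ_sum (fun _ : Fin k => (univ : Finset (Fin 16)))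
      (fun _ u => (if good u = true then yy ^ 11 else (1 : ℝ)))
    simp only [Fintype.piFinset_univ] at this
    rw [← this, Finset.prod_const]
    simp only [Finset.card_univ, Fintype.card_fin]
    congr 1
    rw [Finset.sum_ite, Finset.sum_const, Finset.sum_const, good_card]
    have : (univ.filter (fun u : Fin 16 => ¬ good u = true)).card = 10 := by decide +kernel
    rw [this]
    simp
    ring
  rw [h3, beta, mul_pow]

end Pool.Agent.H927R3.Nu2
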