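import Mathlib
import Pool.Agent.H927R3.Nu2Rank

set_option autoImplicit false

namespace Pool.Agent.H927R3.Nu2

open Finset

/-- triples of one block pattern -/
def TT {k l : ℕ} (a a' a'' : Fin k → Fin l) : ℕ :=
  ∑ b : Fin k → Fin 16, ∑ b' : Fin k → Fin 16, ∑ b'' : Fin k → Fin 16,
    ∏ j, (w (a j) (a' j) (b j) (b' j) * w (a' j) (a'' j) (b' j) (b'' j) *
      w (a j) (a'' j) (b j) (b'' j))

theorem sum_prod_pi {ι α : Type*} [Fintype ι] [DecidableEq ι] [Fintype α] (g : ι → α → ℕ) :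
    (∑ f : ι → α, ∏ j, g j (f j)) = ∏ j, ∑ x, g j x := by
  have := Finset.prod_univ_sum (fun _ : ι => (univ : Finset α)) g
  simp only [Fintype.piFinset_univ] at this
  exact this.symm

theorem TT_eq {k l : ℕ} (a a' a'' : Fin k → Fin l) :
    TT a a' a'' = ∏ j, NN (a j) (a' j) (a'' j) := by
  unfold TT NN
  have h1 : ∀ b b' : Fin k → Fin 16, (∑ b'' : Fin k → Fin 16,
      ∏ j, (w (a j) (a' j) (b j) (b' j) * w (a' j) (a'' j) (b' j) (b'' j) *
      w (a j) (a'' j) (b j) (b'' j))) = ∏ j, ∑ z : Fin 16,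
      (w (a j) (a' j) (b j) (b' j) * w (a' j) (a'' j) (b' j) z *
      w (a j) (a'' j) (b j) z) := fun b b' =>
    sum_prod_pi (fun j z => (w (a j) (a' j) (b j) (b' j) * w (a' j) (a'' j) (b' j) z *
      w (a j) (a'' j) (b j) z))
  have h2 : ∀ b : Fin k → Fin 16, (∑ b' : Fin k → Fin 16, ∏ j, ∑ z : Fin 16,
      (w (a j) (a' j) (b j) (b' j) * w (a' j) (a'' j) (b' j) z *
      w (a j) (a'' j) (b j) z)) = ∏ j, ∑ y : Fin 16, ∑ z : Fin 16,
      (w (a j) (a' j) (b j) y * w (a' j) (a'' j) y z *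
      w (a j) (a'' j) (b j) z) := fun b =>
    sum_prod_pi (fun j y => ∑ z : Fin 16, (w (a j) (a' j) (b j) y * w (a' j) (a'' j) y z *
      w (a j) (a'' j) (b j) z))
  calc _ = ∑ b : Fin k → Fin 16, ∑ b' : Fin k → Fin 16, ∏ j, ∑ z : Fin 16,
      (w (a j) (a' j) (b j) (b' j) * w (a' j) (a'' j) (b' j) z *
      w (a j) (a'' j) (b j) z) := Finset.sum_congr rfl fun b _ => Finset.sum_congr rfl fun b' _ => h1 b b'
    _ = ∑ b : Fin k → Fin 16, ∏ j, ∑ y : Fin 16, ∑ z : Fin 16,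
      (w (a j) (a' j) (b j) y * w (a' j) (a'' j) y z *
      w (a j) (a'' j) (b j) z) := Finset.sum_congr rfl fun b _ => h2 b
    _ = _ := sum_prod_pi (fun j x => ∑ y : Fin 16, ∑ z : Fin 16,
      (w (a j) (a' j) x y * w (a' j) (a'' j) y z * w (a j) (a'' j) x z))

theorem TT_sum (k l : ℕ) : (∑ a : Fin k → Fin l, ∑ a' : Fin k → Fin l, ∑ a'' : Fin k → Fin l,
    TT a a' a'') ≤ (240 * l ^ 2) ^ k := by
  simp only [TT_eq]
  have h1 : ∀ a a' : Fin k → Fin l, (∑ a'' : Fin k → Fin l,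
      ∏ j, NN (a j) (a' j) (a'' j)) = ∏ j, ∑ z : Fin l, NN (a j) (a' j) z := fun a a' =>
    sum_prod_pi (fun j z => NN (a j) (a' j) z)
  have h2 : ∀ a : Fin k → Fin l, (∑ a' : Fin k → Fin l, ∏ j, ∑ z : Fin l, NN (a j) (a' j) z) =
      ∏ j, ∑ y : Fin l, ∑ z : Fin l, NN (a j) y z := fun a =>
    sum_prod_pi (fun j y => ∑ z : Fin l, NN (a j) y z)
  calc _ = ∑ a : Fin k → Fin l, ∑ a' : Fin k → Fin l, ∏ j, ∑ z : Fin l, NN (a j) (a' j) z :=
        Finset.sum_congr rfl fun b _ => Finset.sum_congr rfl fun b' _ => h1 b b'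
    _ = ∑ a : Fin k → Fin l, ∏ j, ∑ y : Fin l, ∑ z : Fin l, NN (a j) y z :=
        Finset.sum_congr rfl fun b _ => h2 b
    _ = ∏ _j : Fin k, ∑ x : Fin l, ∑ y : Fin l, ∑ z : Fin l, NN x y z :=
        sum_prod_pi (fun _ x => ∑ y : Fin l, ∑ z : Fin l, NN x y z)
    _ = (∑ x : Fin l, ∑ y : Fin l, ∑ z : Fin l, NN x y z) ^ k := by
        rw [Finset.prod_const]; simp
    _ ≤ (240 * l ^ 2) ^ k := Nat.pow_le_pow_left (NN_sum l) k

/-- swapping three coordinates of a function with three free values -/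
def swp {ι A : Type*} [DecidableEq ι] (i1 i2 i3 : ι) (p : (ι → A) × A × A × A) :
    (ι → A) × A × A × A :=
  (Function.update (Function.update (Function.update p.1 i1 p.2.1) i2 p.2.2.1) i3 p.2.2.2,
    p.1 i1, p.1 i2, p.1 i3)

theorem swp_inv {ι A : Type*} [DecidableEq ι] (i1 i2 i3 : ι) (h12 : i1 ≠ i2) (h23 : i2 ≠ i3)
    (h13 : i1 ≠ i3) : Function.Involutive (swp (A := A) i1 i2 i3) := by
  rintro ⟨c, x, y, z⟩
  unfold swp
  simp only
  have e3 : Function.update (Function.update (Function.update c i1 x) i2 y) i3 z i3 = z := by simp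
  have e2 : Function.update (Function.update (Function.update c i1 x) i2 y) i3 z i2 = y := by
    rw [Function.update_of_ne h23]; simp
  have e1 : Function.update (Function.update (Function.update c i1 x) i2 y) i3 z i1 = x := by
    rw [Function.update_of_ne h13, Function.update_of_ne h12]; simp
  rw [e1, e2, e3]
  refine Prod.ext ?_ rfl
  funext i
  simp only
  by_cases q3 : i = i3
  · subst q3; simp
  · rw [Function.update_of_ne q3]
    by_cases q2 : i = i2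
    · subst q2; simp
    · rw [Function.update_of_ne q2]
      by_cases q1 : i = i1
      · subst q1; simp
      · rw [Function.update_of_ne q1, Function.update_of_ne q3, Function.update_of_ne q2,
          Function.update_of_ne q1]

theorem avg3 {ι A : Type*} [Fintype ι] [DecidableEq ι] [Fintype A] [DecidableEq A]
    (i1 i2 i3 : ι) (h12 : i1 ≠ i2) (h23 : i2 ≠ i3) (h13 : i1 ≠ i3) (F : A → A → A → ℕ) :
    (Fintype.card A) ^ 3 * ∑ c : ι → A, F (c i1) (c i2) (c i3) =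
      Fintype.card (ι → A) * ∑ x, ∑ y, ∑ z, F x y z := by
  have key := Equiv.sum_comp (Function.Involutive.toPerm _ (swp_inv (A := A) i1 i2 i3 h12 h23 h13))
    (fun p : (ι → A) × A × A × A => F p.2.1 p.2.2.1 p.2.2.2)
  have e1 : ∀ p : (ι → A) × A × A × A,
      (fun p : (ι → A) × A × A × A => F p.2.1 p.2.2.1 p.2.2.2)
      ((Function.Involutive.toPerm _ (swp_inv (A := A) i1 i2 i3 h12 h23 h13)) p) =
      F (p.1 i1) (p.1 i2) (p.1 i3) := fun p => rfl
  rw [Finset.sum_congr rfl (fun p _ => e1 p)] at key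
  rw [Fintype.sum_prod_type, Fintype.sum_prod_type] at key
  simp only [Fintype.sum_prod_type, Finset.sum_const, Finset.card_univ, smul_eq_mul] at key
  rw [← key, Finset.mul_sum]
  apply Finset.sum_congr rfl
  intro c _
  rw [Fintype.card_prod, Fintype.card_prod]
  ring

theorem exists_c (m k l : ℕ) (hl : 0 < l) : ∃ c : Fin m → Fin k → Fin l,
    (∑ i1 : Fin m, ∑ i2 : Fin m, ∑ i3 : Fin m,
      if (i1 ≠ i2 ∧ i2 ≠ i3 ∧ i1 ≠ i3) then TT (c i1) (c i2) (c i3) else 0) * (l ^ k) ^ 3 ≤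
      m ^ 3 * (240 * l ^ 2) ^ k := by
  have : Nonempty (Fin m → Fin k → Fin l) := ⟨fun _ _ => ⟨0, hl⟩⟩
  have hcardA : Fintype.card (Fin k → Fin l) = l ^ k := by simp
  have hsum : (∑ c : Fin m → Fin k → Fin l, (∑ i1 : Fin m, ∑ i2 : Fin m, ∑ i3 : Fin m,
      if (i1 ≠ i2 ∧ i2 ≠ i3 ∧ i1 ≠ i3) then TT (c i1) (c i2) (c i3) else 0) * (l ^ k) ^ 3) ≤
      ∑ _c : Fin m → Fin k → Fin l, m ^ 3 * (240 * l ^ 2) ^ k := by
    rw [← Finset.sum_mul, Finset.sum_comm]
    have h1 : ∀ i1 : Fin m, (∑ c : Fin m → Fin k → Fin l, ∑ i2 : Fin m, ∑ i3 : Fin m,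
      if (i1 ≠ i2 ∧ i2 ≠ i3 ∧ i1 ≠ i3) then TT (c i1) (c i2) (c i3) else 0) =
      ∑ i2 : Fin m, ∑ i3 : Fin m, ∑ c : Fin m → Fin k → Fin l,
      if (i1 ≠ i2 ∧ i2 ≠ i3 ∧ i1 ≠ i3) then TT (c i1) (c i2) (c i3) else 0 := by
      intro i1
      rw [Finset.sum_comm]
      apply Finset.sum_congr rfl
      intro i2 _
      rw [Finset.sum_comm]
    rw [Finset.sum_congr rfl (fun i1 _ => h1 i1)]
    have h2 : ∀ i1 i2 i3 : Fin m, (∑ c : Fin m → Fin k → Fin l,
      if (i1 ≠ i2 ∧ i2 ≠ i3 ∧ i1 ≠ i3) then TT (c i1) (c i2) (c i3) else 0) * (l ^ k) ^ 3 ≤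
      Fintype.card (Fin m → Fin k → Fin l) * (240 * l ^ 2) ^ k := by
      intro i1 i2 i3
      by_cases hd : (i1 ≠ i2 ∧ i2 ≠ i3 ∧ i1 ≠ i3)
      · simp only [hd, and_self, ne_eq, not_false_eq_true, if_true]
        have := avg3 i1 i2 i3 hd.1 hd.2.1 hd.2.2 (fun a a' a'' : Fin k → Fin l => TT a a' a'')
        rw [hcardA] at this
        rw [mul_comm, this]
        exact Nat.mul_le_mul_left _ (TT_sum k l)
      · simp only [hd, if_false, Finset.sum_const_zero, zero_mul]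
        exact Nat.zero_le _
    rw [Finset.sum_mul]
    simp_rw [Finset.sum_mul] at h2 ⊢
    calc _ ≤ ∑ i1 : Fin m, ∑ i2 : Fin m, ∑ i3 : Fin m,
          Fintype.card (Fin m → Fin k → Fin l) * (240 * l ^ 2) ^ k :=
          Finset.sum_le_sum fun i1 _ => Finset.sum_le_sum fun i2 _ =>
            Finset.sum_le_sum fun i3 _ => h2 i1 i2 i3
      _ = _ := by
          simp only [Finset.sum_const, Finset.card_univ, Fintype.card_fin, smul_eq_mul]
          ring
  obtain ⟨c, -, hc⟩ := Finset.exists_le_of_sum_le (Finset.univ_nonempty) hsum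
  exact ⟨c, hc⟩

end Pool.Agent.H927R3.Nu2
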