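import Mathlib
import Pool.Agent.H927R3.Nu2Count

set_option autoImplicit false

namespace Pool.Agent.H927R3.Nu2

open Finset

theorem M_le_one {m k l : ℕ} (c : Fin m → Fin k → Fin l) (x y : V m k) : M c x y ≤ 1 := by
  unfold M
  exact Finset.prod_le_one (fun _ _ => Nat.zero_le _) (fun j _ => w_le_one _ _ _ _)

theorem M_symm {m k l : ℕ} (c : Fin m → Fin k → Fin l) (x y : V m k) : M c x y = M c y x := by
  unfold M
  exact Finset.prod_congr rfl (fun j _ => w_symm _ _ _ _)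

theorem M_self {m k l : ℕ} (c : Fin m → Fin k → Fin l) (x : V m k) : M c x x = 1 := by
  unfold M
  exact Finset.prod_eq_one (fun j _ => w_self _ _)

theorem M_fst_ne {m k l : ℕ} (c : Fin m → Fin k → Fin l) (x y : V m k) (hxy : x ≠ y)
    (hM : M c x y = 1) : x.1 ≠ y.1 := by
  intro he
  apply hxy
  refine Prod.ext he ?_
  funext j
  by_contra hne
  have : M c x y = 0 := by
    unfold M
    apply Finset.prod_eq_zero (Finset.mem_univ j)
    simp [w, he, hne]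
  rw [this] at hM
  exact absurd hM (by norm_num)

/-- total number of ordered triangles -/
def Tri {m k l : ℕ} (c : Fin m → Fin k → Fin l) : ℕ :=
  ∑ i1 : Fin m, ∑ i2 : Fin m, ∑ i3 : Fin m,
      if (i1 ≠ i2 ∧ i2 ≠ i3 ∧ i1 ≠ i3) then TT (c i1) (c i2) (c i3) else 0

theorem Tri_eq {m k l : ℕ} (c : Fin m → Fin k → Fin l) :
    (∑ x : V m k, ∑ y : V m k, ∑ z : V m k,
      if (x.1 ≠ y.1 ∧ y.1 ≠ z.1 ∧ x.1 ≠ z.1) then M c x y * M c y z * M c x z else 0) = Tri c := by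
  unfold Tri
  rw [Fintype.sum_prod_type]
  apply Finset.sum_congr rfl
  intro i1 _
  have h1 : ∀ b : Fin k → Fin 16, (∑ y : V m k, ∑ z : V m k,
      if ((i1, b).1 ≠ y.1 ∧ y.1 ≠ z.1 ∧ (i1, b).1 ≠ z.1) then
        M c (i1, b) y * M c y z * M c (i1, b) z else 0) =
      ∑ i2 : Fin m, ∑ i3 : Fin m, ∑ b' : Fin k → Fin 16, ∑ b'' : Fin k → Fin 16,
      if (i1 ≠ i2 ∧ i2 ≠ i3 ∧ i1 ≠ i3) then
        M c (i1, b) (i2, b') * M c (i2, b') (i3, b'') * M c (i1, b) (i3, b'') else 0 := by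
    intro b
    rw [Fintype.sum_prod_type]
    apply Finset.sum_congr rfl
    intro i2 _
    rw [Finset.sum_comm]
    rw [Fintype.sum_prod_type]
    apply Finset.sum_congr rfl
    intro i3 _
    rw [Finset.sum_comm]
  rw [Finset.sum_congr rfl (fun b _ => h1 b), Finset.sum_comm]
  apply Finset.sum_congr rfl
  intro i2 _
  rw [Finset.sum_comm]
  apply Finset.sum_congr rfl
  intro i3 _
  by_cases hd : (i1 ≠ i2 ∧ i2 ≠ i3 ∧ i1 ≠ i3)
  · rw [if_pos hd]
    unfold TT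
    apply Finset.sum_congr rfl
    intro b _
    apply Finset.sum_congr rfl
    intro b' _
    apply Finset.sum_congr rfl
    intro b'' _
    rw [if_pos hd]
    simp only [M, ← Finset.prod_mul_distrib]
  · rw [if_neg hd]
    simp only [if_neg hd, Finset.sum_const_zero]

/-- vertices in a triangle -/
def Bad {m k l : ℕ} (c : Fin m → Fin k → Fin l) : Finset (V m k) :=
  univ.filter (fun x => ∃ y z : V m k, (x.1 ≠ y.1 ∧ y.1 ≠ z.1 ∧ x.1 ≠ z.1) ∧
    M c x y = 1 ∧ M c y z = 1 ∧ M c x z = 1)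

theorem Bad_card {m k l : ℕ} (c : Fin m → Fin k → Fin l) : (Bad c).card ≤ Tri c := by
  rw [← Tri_eq]
  unfold Bad
  rw [Finset.card_filter]
  apply Finset.sum_le_sum
  intro x _
  split_ifs with hx
  · obtain ⟨y, z, hd, h1, h2, h3⟩ := hx
    calc 1 = (if (x.1 ≠ y.1 ∧ y.1 ≠ z.1 ∧ x.1 ≠ z.1) then M c x y * M c y z * M c x z else 0) := by
          rw [if_pos hd, h1, h2, h3]
      _ ≤ ∑ z : V m k, (if (x.1 ≠ y.1 ∧ y.1 ≠ z.1 ∧ x.1 ≠ z.1) then
          M c x y * M c y z * M c x z else 0) :=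
          Finset.single_le_sum (f := fun z : V m k => (if (x.1 ≠ y.1 ∧ y.1 ≠ z.1 ∧ x.1 ≠ z.1) then
          M c x y * M c y z * M c x z else 0)) (fun _ _ => Nat.zero_le _) (Finset.mem_univ z)
      _ ≤ _ := Finset.single_le_sum (f := fun y : V m k => ∑ z : V m k,
          (if (x.1 ≠ y.1 ∧ y.1 ≠ z.1 ∧ x.1 ≠ z.1) then
          M c x y * M c y z * M c x z else 0)) (fun _ _ => Nat.zero_le _) (Finset.mem_univ y)
  · exact Nat.zero_le _

theorem rank_neg' {V W : Type*} [Fintype V] [DecidableEq V] [Fintype W] (A : Matrix W V ℝ) :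
    (-A).rank ≤ A.rank := by
  have : -A = A * (-1 : Matrix V V ℝ) := by simp
  rw [this]
  exact Matrix.rank_mul_le_left _ _

theorem rank_sub' {V W : Type*} [Fintype V] [DecidableEq V] [Fintype W] [DecidableEq W]
    (A : Matrix V V ℝ) (e : W → V) :
    (A.submatrix e e).rank ≤ A.rank := by
  have : A.submatrix e e = (Matrix.of (fun p x => if e p = x then (1 : ℝ) else 0) : Matrix W V ℝ) *
      A * (Matrix.of (fun x q => if x = e q then (1 : ℝ) else 0) : Matrix V W ℝ) := by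
    ext p q
    simp [Matrix.mul_apply]
  rw [this]
  exact (Matrix.rank_mul_le_left _ _).trans (Matrix.rank_mul_le_right _ _)

theorem rank_one' {W : Type*} [Fintype W] [DecidableEq W] :
    (Matrix.of (fun _ _ => (1 : ℝ)) : Matrix W W ℝ).rank ≤ 1 := by
  have := rank_fg (V := W) (P := Unit) (fun _ => 1) (fun _ => ()) (fun _ _ => 1)
  simpa using this

theorem exists_graph {m k l n : ℕ} (c : Fin m → Fin k → Fin l)
    (hn : n + Tri c ≤ m * 16 ^ k) :
    ∃ G : SimpleGraph (Fin n), G.CliqueFree 3 ∧ ∀ [DecidableRel Gᶜ.Adj],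
      ((Gᶜ).adjMatrix ℝ).rank ≤ 1 + (Matrix.of (fun x y => (M c x y : ℝ)) :
        Matrix (V m k) (V m k) ℝ).rank := by
  classical
  have hcard : n ≤ ((Bad c)ᶜ).card := by
    rw [Finset.card_compl]
    have h1 := Bad_card c
    have h2 : Fintype.card (V m k) = m * 16 ^ k := by simp [V]
    rw [h2]
    omega
  obtain ⟨S, hS, hSn⟩ := Finset.exists_subset_card_eq hcard
  have eqv : Fin n ≃ S := (Fintype.equivFinOfCardEq (by simpa using hSn)).symm
  set e : Fin n → V m k := fun p => (eqv p).1 with he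
  have hinj : Function.Injective e := fun p q hpq => eqv.injective (Subtype.ext hpq)
  have hgood : ∀ p, e p ∉ Bad c := fun p => by
    have := hS (eqv p).2
    simpa using this
  let G : SimpleGraph (Fin n) :=
    { Adj := fun p q => p ≠ q ∧ M c (e p) (e q) = 1
      symm := ⟨fun p q hpq => ⟨hpq.1.symm, by rw [M_symm]; exact hpq.2⟩⟩
      loopless := ⟨fun p hp => hp.1 rfl⟩ }
  refine ⟨G, ?_, ?_⟩
  · intro s hs
    rw [SimpleGraph.is3Clique_iff] at hs
    obtain ⟨p, q, r, hpq, hpr, hqr, -⟩ := hs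
    apply hgood p
    unfold Bad
    rw [Finset.mem_filter]
    refine ⟨Finset.mem_univ _, e q, e r, ⟨?_, ?_, ?_⟩, hpq.2, hqr.2, hpr.2⟩
    · exact M_fst_ne c _ _ (fun h => hpq.1 (hinj h)) hpq.2
    · exact M_fst_ne c _ _ (fun h => hqr.1 (hinj h)) hqr.2
    · exact M_fst_ne c _ _ (fun h => hpr.1 (hinj h)) hpr.2
  · intro _
    have hmat : (Gᶜ).adjMatrix ℝ = (Matrix.of (fun _ _ => (1 : ℝ)) : Matrix (Fin n) (Fin n) ℝ) +
        -((Matrix.of (fun x y => (M c x y : ℝ)) : Matrix (V m k) (V m k) ℝ).submatrix e e) := by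
      ext p q
      simp only [SimpleGraph.adjMatrix_apply, Matrix.add_apply, Matrix.neg_apply, Matrix.of_apply,
        Matrix.submatrix_apply]
      by_cases hpq : p = q
      · subst hpq
        rw [if_neg (by simp), M_self]
        simp
      · have h01 : M c (e p) (e q) = 0 ∨ M c (e p) (e q) = 1 := by
          have := M_le_one c (e p) (e q)
          omega
        rcases h01 with h | h
        · rw [if_pos, h]
          · simp
          · rw [SimpleGraph.compl_adj]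
            exact ⟨hpq, fun hadj => by have := hadj.2; omega⟩
        · rw [if_neg, h]
          · simp
          · rw [SimpleGraph.compl_adj]
            rintro ⟨_, h2⟩
            exact h2 ⟨hpq, h⟩
    rw [hmat]
    refine (rank_add_le' _ _).trans ?_
    exact Nat.add_le_add rank_one' ((rank_neg' _).trans (rank_sub' _ e))

theorem step (n : ℕ) (k : ℕ) (hk : 1 ≤ k) (hn : 16 * n ≤ (2 ^ 24) ^ k) :
    ∃ G : SimpleGraph (Fin n), G.CliqueFree 3 ∧ ∀ [DecidableRel Gᶜ.Adj],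
      (((Gᶜ).adjMatrix ℝ).rank : ℝ) ≤ 1 + beta ^ k := by
  obtain ⟨c, hc⟩ := exists_c ((2 ^ 20) ^ k) k (2 ^ 44) (by positivity)
  have hTri : Tri c ≤ (15 * 2 ^ 20) ^ k := by
    have h1 : Tri c * ((2 ^ 44) ^ k) ^ 3 ≤ ((2 ^ 20) ^ k) ^ 3 * (240 * (2 ^ 44) ^ 2) ^ k := hc
    have e1 : ((2 ^ 20) ^ k) ^ 3 * (240 * (2 ^ 44) ^ 2) ^ k =
        (15 * 2 ^ 20) ^ k * ((2 ^ 44) ^ k) ^ 3 := by
      rw [← pow_mul, ← pow_mul (2 ^ 44) k 3, mul_comm k 3, pow_mul, pow_mul (2 ^ 44) 3 k,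
        ← mul_pow, ← mul_pow]
      norm_num
    rw [e1] at h1
    exact Nat.le_of_mul_le_mul_right h1 (by positivity)
  have hsz : n + Tri c ≤ (2 ^ 20) ^ k * 16 ^ k := by
    have e2 : (2 ^ 20) ^ k * 16 ^ k = (2 ^ 24) ^ k := by
      rw [← mul_pow]; norm_num
    rw [e2]
    obtain ⟨k', rfl⟩ : ∃ k', k = k' + 1 := ⟨k - 1, by omega⟩
    have h3 : 16 * (15 * 2 ^ 20) ^ (k' + 1) ≤ 15 * (2 ^ 24) ^ (k' + 1) := by
      have h4 : (15 * 2 ^ 20) ^ k' ≤ (2 ^ 24) ^ k' := Nat.pow_le_pow_left (by norm_num) k'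
      calc 16 * (15 * 2 ^ 20) ^ (k' + 1) = 15 * 2 ^ 24 * (15 * 2 ^ 20) ^ k' := by
            rw [pow_succ]; ring
        _ ≤ 15 * 2 ^ 24 * (2 ^ 24) ^ k' := Nat.mul_le_mul_left _ h4
        _ = 15 * (2 ^ 24) ^ (k' + 1) := by rw [pow_succ]; ring
    generalize (2 ^ 24) ^ (k' + 1) = X at *
    generalize (15 * 2 ^ 20) ^ (k' + 1) = Y at *
    omega
  obtain ⟨G, hG, hr⟩ := exists_graph c hsz
  refine ⟨G, hG, ?_⟩
  intro inst
  have h1 := @hr inst
  have h2 : (((Gᶜ).adjMatrix ℝ).rank : ℝ) ≤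
      1 + ((Matrix.of (fun x y => (M c x y : ℝ)) :
        Matrix (V ((2 ^ 20) ^ k) k) (V ((2 ^ 20) ^ k) k) ℝ).rank : ℝ) := by exact_mod_cast h1
  exact h2.trans (by linarith [rank_M_le c])

theorem main : ∃ c : ℝ, 0 < c ∧ ∃ C : ℝ, 0 < C ∧ ∀ n : ℕ, 1 ≤ n →
    ∃ G : SimpleGraph (Fin n), G.CliqueFree 3 ∧ ∀ [DecidableRel Gᶜ.Adj],
      (((Gᶜ).adjMatrix ℝ).rank : ℝ) ≤ C * (n : ℝ) ^ (1 - c) := by
  have hK : (1 : ℝ) < 2 ^ 24 := by norm_num
  have hlogK : 0 < Real.log (2 ^ 24) := Real.log_pos hK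
  have hlogb : 0 ≤ Real.log beta := Real.log_nonneg beta_ge
  have hb0 : 0 < beta := lt_of_lt_of_le one_pos beta_ge
  have hlt : Real.log beta < Real.log (2 ^ 24) := Real.log_lt_log hb0 beta_lt
  set s : ℝ := Real.log beta / Real.log (2 ^ 24) with hs
  have hs0 : 0 ≤ s := div_nonneg hlogb hlogK.le
  have hs1 : s < 1 := (div_lt_one hlogK).mpr hlt
  have hbeta : beta = ((2 : ℝ) ^ 24) ^ s := by
    rw [hs, Real.rpow_def_of_pos (by positivity), mul_div_cancel₀ _ hlogK.ne', Real.exp_log hb0]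
  refine ⟨1 - s, by linarith, 1 + ((2 : ℝ) ^ 24) ^ 2, by positivity, ?_⟩
  intro n hn
  set q := Nat.log (2 ^ 24) n with hq
  have hq1 : (2 ^ 24) ^ q ≤ n := Nat.pow_log_le_self _ (by omega)
  have hq2 : n < (2 ^ 24) ^ (q + 1) := Nat.lt_pow_succ_log_self (by norm_num) n
  obtain ⟨G, hG, hr⟩ := step n (q + 2) (by omega) (by
    calc 16 * n ≤ 2 ^ 24 * (2 ^ 24) ^ (q + 1) := Nat.mul_le_mul (by norm_num) hq2.le
      _ = (2 ^ 24) ^ (q + 2) := by rw [pow_succ (2 ^ 24) (q + 1)]; ring)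
  refine ⟨G, hG, ?_⟩
  intro inst
  refine (@hr inst).trans ?_
  have hnr : (1 : ℝ) ≤ (n : ℝ) := by exact_mod_cast hn
  have e1 : 1 - (1 - s) = s := by ring
  rw [e1]
  have h1 : (1 : ℝ) ≤ (n : ℝ) ^ s := Real.one_le_rpow hnr hs0
  have h2 : beta ^ (q + 2) ≤ ((2 : ℝ) ^ 24) ^ 2 * (n : ℝ) ^ s := by
    have h3 : beta ^ (q + 2) = (((2 : ℝ) ^ 24) ^ (q + 2)) ^ s := by
      rw [hbeta, ← Real.rpow_natCast (((2 : ℝ) ^ 24) ^ s), ← Real.rpow_mul (by positivity),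
        mul_comm s, Real.rpow_mul (by positivity), Real.rpow_natCast]
    rw [h3]
    have h4 : ((2 : ℝ) ^ 24) ^ (q + 2) = ((2 : ℝ) ^ 24) ^ q * ((2 : ℝ) ^ 24) ^ 2 := by
      rw [pow_add]
    have h5 : ((2 : ℝ) ^ 24) ^ q ≤ (n : ℝ) := by exact_mod_cast hq1
    rw [h4, Real.mul_rpow (by positivity) (by positivity), mul_comm]
    apply mul_le_mul
    · calc (((2 : ℝ) ^ 24) ^ 2) ^ s ≤ (((2 : ℝ) ^ 24) ^ 2) ^ (1 : ℝ) :=
            Real.rpow_le_rpow_of_exponent_le (by norm_num) hs1.le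
        _ = ((2 : ℝ) ^ 24) ^ 2 := Real.rpow_one _
    · exact Real.rpow_le_rpow (by positivity) h5 hs0
    · positivity
    · positivity
  calc 1 + beta ^ (q + 2) ≤ (n : ℝ) ^ s + ((2 : ℝ) ^ 24) ^ 2 * (n : ℝ) ^ s := by linarith
    _ = (1 + ((2 : ℝ) ^ 24) ^ 2) * (n : ℝ) ^ s := by ring

end Pool.Agent.H927R3.Nu2
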